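import Mathlib

/-!
# An open continuous surjective homomorphism without a quasihomomorphism section
-/

set_option autoImplicit false

namespace Pool.Agent.Results.MP_9c76b4_al.NoQuasiSection

open Topology

/-- A map `t` between topological groups is a quasihomomorphism if `t e = e`, the map
`(h₁, h₂) ↦ t(h₁) t(h₂) t(h₁h₂)⁻¹` is continuous at `(e, e)`, and for every `y` the map
`h ↦ t(y) t(h) t(y)⁻¹ t(yhy⁻¹)⁻¹` is continuous at `e`. -/
structure IsQuasiHom {G H : Type} [Group G] [TopologicalSpace G] [Group H] [TopologicalSpace H]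
    (t : H → G) : Prop where
  map_one : t 1 = 1
  mul : ContinuousAt (fun p : H × H => t p.1 * t p.2 * (t (p.1 * p.2))⁻¹) (1, 1)
  conj : ∀ y : H, ContinuousAt (fun h => t y * t h * (t y)⁻¹ * (t (y * h * y⁻¹))⁻¹) 1

/-- Finitely supported real sequences. -/
def HH : Type := ℕ →₀ ℝ

noncomputable instance : AddCommGroup HH := inferInstanceAs (AddCommGroup (ℕ →₀ ℝ))

/-- The coordinates. -/
noncomputable def coord : HH →+ (ℕ → ℝ) := Finsupp.coeFnAddHom

noncomputable instance : TopologicalSpace HH := TopologicalSpace.induced coord inferInstance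

instance : IsTopologicalAddGroup HH := topologicalAddGroup_induced coord

instance : FirstCountableTopology HH := TopologicalSpace.firstCountableTopology_induced _ _ coord

theorem coord_injective : Function.Injective coord :=
  fun _ _ h => Finsupp.ext fun k => congrFun h k

instance : T2Space HH :=
  T2Space.of_injective_continuous coord_injective continuous_induced_dom

/-- The pairing with an arbitrary sequence. -/
noncomputable def pair (i : ℕ → ℝ) : HH →+ ℝ :=
  Finsupp.liftAddHom (fun k => AddMonoidHom.mulLeft (i k))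

/-- The multiple `s e_k` of the `k`-th basis vector. -/
noncomputable def vec (k : ℕ) : ℝ →+ HH := Finsupp.singleAddHom k

theorem pair_vec (i : ℕ → ℝ) (k : ℕ) (s : ℝ) : pair i (vec k s) = i k * s := by
  show Finsupp.liftAddHom (fun k => AddMonoidHom.mulLeft (i k)) (Finsupp.single k s) = _
  rw [Finsupp.liftAddHom_apply_single]
  rfl

theorem continuous_vec (k : ℕ) : Continuous (vec k) := by
  rw [continuous_induced_rng]
  apply continuous_pi
  intro j
  show Continuous fun s : ℝ => (Finsupp.single k s) j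
  by_cases h : k = j
  · subst h
    simp only [Finsupp.single_eq_same]
    exact continuous_id
  · simp only [Finsupp.single_apply, if_neg h]
    exact continuous_const

/-- The group `G`. -/
noncomputable def GG : AddSubgroup (HH × ((ℕ → ℝ) → ℤ)) where
  carrier := {p | ∃ C : ℝ, ∀ i, |((p.2 i : ℤ) : ℝ) - pair i p.1| ≤ C}
  zero_mem' := ⟨0, fun i => by simp⟩
  add_mem' := by
    rintro p q ⟨C, hC⟩ ⟨D, hD⟩
    refine ⟨C + D, fun i => ?_⟩
    have h : (((p + q).2 i : ℤ) : ℝ) - pair i (p + q).1 =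
        (((p.2 i : ℤ) : ℝ) - pair i p.1) + (((q.2 i : ℤ) : ℝ) - pair i q.1) := by
      rw [Prod.fst_add, Prod.snd_add, Pi.add_apply, map_add, Int.cast_add]
      ring
    rw [h]
    exact (abs_add_le _ _).trans (add_le_add (hC i) (hD i))
  neg_mem' := by
    rintro p ⟨C, hC⟩
    refine ⟨C, fun i => ?_⟩
    have h : (((-p).2 i : ℤ) : ℝ) - pair i (-p).1 =
        -(((p.2 i : ℤ) : ℝ) - pair i p.1) := by
      rw [Prod.fst_neg, Prod.snd_neg, Pi.neg_apply, map_neg, Int.cast_neg]
      ring
    rw [h, abs_neg]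
    exact hC i

/-- The projection. -/
noncomputable def ff : GG →+ HH := (AddMonoidHom.fst _ _).comp GG.subtype

/-- The integral coordinates of the elements of `G`. -/
noncomputable def cc (i : ℕ → ℝ) : GG →+ ℤ :=
  ((Pi.evalAddMonoidHom (fun _ : ℕ → ℝ => ℤ) i).comp (AddMonoidHom.snd _ _)).comp GG.subtype

theorem continuous_cc (i : ℕ → ℝ) : Continuous (cc i) :=
  (continuous_apply i).comp (continuous_snd.comp continuous_subtype_val)

theorem cc_bound (p : GG) : ∃ C : ℝ, ∀ i, |((cc i p : ℤ) : ℝ) - pair i (ff p)| ≤ C := p.2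

theorem continuous_ff : Continuous ff := continuous_fst.comp continuous_subtype_val

theorem surjective_ff : Function.Surjective ff := by
  intro h
  refine ⟨⟨(h, fun i => ⌊pair i h⌋), 1, fun i => ?_⟩, rfl⟩
  rw [abs_le]
  constructor
  · have := Int.lt_floor_add_one (pair i h)
    show -1 ≤ ((⌊pair i h⌋ : ℤ) : ℝ) - pair i h
    linarith
  · have := Int.floor_le (pair i h)
    show ((⌊pair i h⌋ : ℤ) : ℝ) - pair i h ≤ 1
    linarith

theorem isOpenMap_ff : IsOpenMap ff := by
  classical
  intro O hO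
  rw [isOpen_iff_mem_nhds]
  rintro _ ⟨p, hp, rfl⟩
  obtain ⟨O', hO', rfl⟩ := isOpen_induced_iff.mp hO
  obtain ⟨U, V, hU, hV, hpU, hpV, hUV⟩ := isOpen_prod_iff.mp hO' p.1.1 p.1.2 hp
  obtain ⟨F, u, hu, huV⟩ := isOpen_pi_iff.mp hV p.1.2 hpV
  refine Filter.mem_of_superset (hU.mem_nhds hpU) ?_
  intro h hh
  let y : (ℕ → ℝ) → ℤ := fun i => if i ∈ F then p.1.2 i else ⌊pair i h⌋
  have hy : ((h, y) : HH × ((ℕ → ℝ) → ℤ)) ∈ GG := by
    refine ⟨1 + ∑ i ∈ F, |((p.1.2 i : ℤ) : ℝ) - pair i h|, fun i => ?_⟩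
    show |((y i : ℤ) : ℝ) - pair i h| ≤ _
    by_cases hi : i ∈ F
    · have h1 : y i = p.1.2 i := if_pos hi
      rw [h1]
      have := Finset.single_le_sum (f := fun i => |((p.1.2 i : ℤ) : ℝ) - pair i h|)
        (fun i _ => abs_nonneg _) hi
      linarith
    · have h1 : y i = ⌊pair i h⌋ := if_neg hi
      rw [h1]
      have h2 : 0 ≤ ∑ i ∈ F, |((p.1.2 i : ℤ) : ℝ) - pair i h| :=
        Finset.sum_nonneg (fun i _ => abs_nonneg _)
      have h3 : |((⌊pair i h⌋ : ℤ) : ℝ) - pair i h| ≤ 1 := by
        rw [abs_le]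
        constructor
        · linarith [Int.lt_floor_add_one (pair i h)]
        · linarith [Int.floor_le (pair i h)]
      linarith
  refine ⟨⟨(h, y), hy⟩, ?_, rfl⟩
  apply hUV
  refine Set.mk_mem_prod hh (huV ?_)
  intro i hi
  have h1 : y i = p.1.2 i := if_pos hi
  rw [h1]
  exact (hu i hi).2

/-- A map that is additive on a segment of integral multiples. -/
theorem vanish {τ : HH → ℤ} {k : ℕ} {ε : ℝ} (hε : 0 < ε)
    (h : ∀ s t : ℝ, |s| ≤ ε → |t| ≤ ε → τ (vec k s + vec k t) = τ (vec k s) + τ (vec k t)) :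
    τ (vec k ε) = 0 := by
  have h0 : τ (vec k 0) = 0 := by
    have := h 0 0 (by simpa using hε.le) (by simpa using hε.le)
    rw [← map_add, add_zero] at this
    linarith
  have key : ∀ n : ℕ, 0 < n → ∀ m : ℕ, m ≤ n →
      τ (vec k (m * (ε / n))) = m * τ (vec k (ε / n)) := by
    intro n hn m
    induction m with
    | zero => intro _; rw [Nat.cast_zero, zero_mul, h0]; simp
    | succ m ih =>
      intro hm
      have hn' : (0 : ℝ) < n := by exact_mod_cast hn
      have hm' : ((m + 1 : ℕ) : ℝ) ≤ n := by exact_mod_cast hm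
      push_cast at hm'
      have h1 : |(m : ℝ) * (ε / n)| ≤ ε := by
        rw [abs_of_nonneg (by positivity), mul_div_assoc', div_le_iff₀ hn', mul_comm ε]
        apply mul_le_mul_of_nonneg_right _ hε.le
        linarith
      have h2 : |ε / n| ≤ ε := by
        rw [abs_of_nonneg (by positivity)]
        apply div_le_self hε.le
        have : (0 : ℝ) ≤ m := Nat.cast_nonneg m
        linarith
      have h3 := h _ _ h1 h2
      rw [← map_add, ih (by omega)] at h3
      have h4 : ((m + 1 : ℕ) : ℝ) * (ε / n) = m * (ε / n) + ε / n := by push_cast; ring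
      rw [h4, h3]
      push_cast
      ring
  have hdvd : ∀ n : ℕ, 0 < n → (n : ℤ) ∣ τ (vec k ε) := by
    intro n hn
    have h1 := key n hn n le_rfl
    have hn' : (n : ℝ) ≠ 0 := by positivity
    rw [mul_div_cancel₀ _ hn'] at h1
    exact ⟨_, h1⟩
  have := hdvd ((τ (vec k ε)).natAbs + 1) (by omega)
  apply Int.eq_zero_of_abs_lt_dvd this
  rw [Int.abs_eq_natAbs]
  push_cast
  omega

/-- There are Hausdorff abelian topological groups `G`, `H` and an open continuous surjective
homomorphism `f : G → H` such that no section of `f` is a quasihomomorphism. -/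
theorem result : ∃ (G H : Type) (_ : CommGroup G) (_ : TopologicalSpace G)
    (_ : IsTopologicalGroup G) (_ : T2Space G) (_ : CommGroup H) (_ : TopologicalSpace H)
    (_ : IsTopologicalGroup H) (_ : T2Space H) (f : G →* H),
    Continuous f ∧ IsOpenMap f ∧ Function.Surjective f ∧
      ¬ ∃ s : H → G, (∀ h, f (s h) = h) ∧ IsQuasiHom s := by
  refine ⟨Multiplicative GG, Multiplicative HH, inferInstance, inferInstance, inferInstance,
    inferInstanceAs (T2Space GG), inferInstance, inferInstance, inferInstance,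
    inferInstanceAs (T2Space HH),
    AddMonoidHom.toMultiplicative ff, continuous_ff, isOpenMap_ff, surjective_ff, ?_⟩
  rintro ⟨s, hs, hq⟩
  -- the additive form of the section
  let t : HH → GG := fun h => (s (Multiplicative.ofAdd h)).toAdd
  have hfst : ∀ h, ff (t h) = h := fun h => congrArg Multiplicative.toAdd (hs (.ofAdd h))
  have ht0 : t 0 = 0 := congrArg Multiplicative.toAdd hq.map_one
  have hcont : ContinuousAt (fun p : HH × HH => t p.1 + t p.2 + (-(t (p.1 + p.2)))) (0, 0) :=
    hq.mul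
  clear_value t
  -- local additivity of the coordinates
  have hloc : ∀ i : ℕ → ℝ, ∃ W ∈ 𝓝 (0 : HH), ∀ a ∈ W, ∀ b ∈ W,
      cc i (t (a + b)) = cc i (t a) + cc i (t b) := by
    intro i
    have h1 : ContinuousAt (fun p : HH × HH =>
        cc i (t p.1 + t p.2 + (-(t (p.1 + p.2))))) (0, 0) :=
      (continuous_cc i).continuousAt.comp hcont
    have h2 := h1.preimage_mem_nhds (t := {0}) (by
      simp [ht0])
    rw [nhds_prod_eq, Filter.mem_prod_same_iff] at h2
    obtain ⟨W, hW, hWW⟩ := h2
    refine ⟨W, hW, fun a ha b hb => ?_⟩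
    have h3 := hWW (Set.mk_mem_prod ha hb)
    rw [Set.mem_preimage, Set.mem_singleton_iff, map_add, map_add, map_neg] at h3
    simp only at h3
    linarith
  choose W hW hadd using hloc
  obtain ⟨U, hU⟩ := (𝓝 (0 : HH)).exists_antitone_basis
  -- the radii
  have hrad : ∀ n k : ℕ, ∃ ε : ℝ, 0 < ε ∧ ∀ s : ℝ, |s| ≤ ε → vec k s ∈ U n := by
    intro n k
    have h1 : vec k ⁻¹' U n ∈ 𝓝 (0 : ℝ) := by
      apply (continuous_vec k).continuousAt.preimage_mem_nhds
      rw [map_zero]
      exact hU.mem n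
    obtain ⟨ε, hε, h⟩ := Metric.mem_nhds_iff.mp h1
    refine ⟨ε / 2, by positivity, fun s hs => h ?_⟩
    rw [mem_ball_zero_iff, Real.norm_eq_abs]
    linarith
  choose ε hε hεU using hrad
  have hC : ∀ h : HH, ∃ C : ℝ, ∀ i, |((cc i (t h) : ℤ) : ℝ) - pair i (ff (t h))| ≤ C :=
    fun h => cc_bound (t h)
  choose C hC using hC
  -- the diagonal sequence
  let i : ℕ → ℝ := fun k => (C (vec k (ε k k)) + 1) / ε k k
  obtain ⟨n, hn⟩ : ∃ n, U n ⊆ W i := by
    obtain ⟨n, hn⟩ := hU.toHasBasis.mem_iff.mp (hW i)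
    exact ⟨n, hn.2⟩
  have hv : cc i (t (vec n (ε n n))) = 0 := by
    apply vanish (τ := fun h => cc i (t h)) (hε n n)
    intro s s' hs hs'
    exact hadd i _ (hn (hεU n n s hs)) _ (hn (hεU n n s' hs'))
  have hb := hC (vec n (ε n n)) i
  rw [hv, hfst, pair_vec] at hb
  have h1 : i n * ε n n = C (vec n (ε n n)) + 1 := div_mul_cancel₀ _ (hε n n).ne'
  rw [h1, Int.cast_zero, zero_sub, abs_neg] at hb
  linarith [le_abs_self (C (vec n (ε n n)) + 1)]

end Pool.Agent.Results.MP_9c76b4_al.NoQuasiSection
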